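import Pool.Agent.H14.VC.Main
import Pool.Agent.H16.P3.Weights

/-!
# The weighted sum over the differences: pointwise bounds, for an arbitrary condition
-/

set_option autoImplicit false

namespace Pool.Agent.H16.P4

open Finset
open Pool.Agent.H14.VC
open Pool.Agent.H16.P3 (gen ind miss)

variable (T : ℕ → ℤ → Prop)

/-- the difference is good -/
def Good (Q R : Finset ℕ) (c : ℕ → ℝ) (z : ℕ) (n : ℤ) : Prop :=
  (∀ q ∈ Pz z, ¬ T q n) ∧ (∀ p ∈ R, ¬ T p n) ∧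
    (by classical exact ∑ p ∈ (Q \ R).filter (fun p => T p n), c p < 1)

open Classical in
lemma gen_ind_T (Q : Finset ℕ) (l : Finset ℕ → ℝ) (n : ℤ) :
    ∑ U ∈ Q.powerset, l U * ∏ p ∈ U, (if T p n then (1 : ℝ) else 0) =
      gen Q l (ind (Q.filter (fun p => T p n))) := by
  unfold gen
  apply sum_congr rfl
  intro U hU
  rw [mem_powerset] at hU
  congr 1
  apply prod_congr rfl
  intro p hp
  unfold ind
  by_cases h : T p n
  · rw [if_pos h, if_pos (mem_filter.2 ⟨hU hp, h⟩)]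
  · rw [if_neg h, if_neg (fun h' : p ∈ Q.filter (fun p => T p n) => h (mem_filter.1 h').2)]

open Classical in
lemma pt_upper (Q R : Finset ℕ) (hRQ : R ⊆ Q) (c : ℕ → ℝ) (hc : ∀ p ∈ Q \ R, 0 ≤ c p) (l1 l2 : Finset ℕ → ℝ)
    (h : ∀ S, 0 ≤ gen Q l1 (ind S) ∧ 0 ≤ gen Q l2 (ind S) ∧
        gen Q l1 (ind S) - gen Q l2 (ind S) ≤ miss R S * (1 - ∑ p ∈ (Q \ R) ∩ S, c p))
    (z : ℕ) (n : ℤ) (X : ℝ) :
    X ^ 2 * ((1 - ∑ q ∈ Pz z, (if T q n then (1 : ℝ) else 0)) *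
      (∑ U ∈ Q.powerset, l1 U * ∏ p ∈ U, (if T p n then (1 : ℝ) else 0)) -
      ∑ U ∈ Q.powerset, l2 U * ∏ p ∈ U, (if T p n then (1 : ℝ) else 0)) ≤
      if Good T Q R c z n then X ^ 2 else 0 := by
  rw [gen_ind_T, gen_ind_T]
  obtain ⟨h1, h2, h3⟩ := h (Q.filter (fun p => T p n))
  set S := Q.filter (fun p => T p n) with hS
  have hX := sq_nonneg X
  have hset : (Q \ R) ∩ S = (Q \ R).filter (fun p => T p n) := by
    ext p
    simp only [hS, mem_inter, mem_filter, mem_sdiff]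
    tauto
  rw [hset] at h3
  have hsum0 : 0 ≤ ∑ p ∈ (Q \ R).filter (fun p => T p n), c p :=
    sum_nonneg fun p hp => hc p (mem_filter.1 hp).1
  by_cases hq : ∀ q ∈ Pz z, ¬ T q n
  · have e0 : ∑ q ∈ Pz z, (if T q n then (1 : ℝ) else 0) = 0 :=
      sum_eq_zero fun q hq' => by rw [if_neg (hq q hq')]
    rw [e0, sub_zero, one_mul]
    by_cases hm : ∀ p ∈ R, ¬ T p n
    · have hmiss : miss R S = 1 := by
        unfold miss
        rw [if_pos]
        rw [disjoint_left]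
        intro p hp hpR
        exact hm p hpR (mem_filter.1 hp).2
      rw [hmiss, one_mul] at h3
      by_cases hs : ∑ p ∈ (Q \ R).filter (fun p => T p n), c p < 1
      · rw [if_pos ⟨hq, hm, hs⟩]
        nlinarith
      · rw [if_neg (fun h' => hs h'.2.2)]
        push Not at hs
        nlinarith
    · rw [if_neg (fun h' => hm h'.2.1)]
      push Not at hm
      obtain ⟨p, hp, hpT⟩ := hm
      have hmiss : miss R S = 0 := by
        unfold miss
        rw [if_neg]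
        intro hd
        exact (disjoint_left.1 hd) (mem_filter.2 ⟨hRQ hp, hpT⟩) hp
      rw [hmiss, zero_mul] at h3
      nlinarith
  · rw [if_neg (fun h' => hq h'.1)]
    push Not at hq
    obtain ⟨q, hq, hT⟩ := hq
    have e1 : (1 : ℝ) ≤ ∑ q ∈ Pz z, (if T q n then (1 : ℝ) else 0) := by
      have h2 : (if T q n then (1 : ℝ) else 0) ≤ ∑ q ∈ Pz z, (if T q n then (1 : ℝ) else 0) := by
        apply single_le_sum (f := fun q => if T q n then (1 : ℝ) else 0) _ hq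
        intro i _
        positivity
      rw [if_pos hT] at h2
      exact h2
    have e2 : (1 - ∑ q ∈ Pz z, (if T q n then (1 : ℝ) else 0)) * gen Q l1 (ind S) ≤ 0 :=
      mul_nonpos_of_nonpos_of_nonneg (by linarith) h1
    nlinarith

open Classical in
/-- the upper bound for the pair sum -/
lemma pair_upper (A Q R : Finset ℕ) (c : ℕ → ℝ) (z : ℕ) (X F : ℤ → ℝ) (D0 E : ℝ)
    (hF : ∀ n, F n ≤ if Good T Q R c z n then X n ^ 2 else 0)
    (h0 : |X 0| ≤ D0)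
    (h1 : ∀ n : ℤ, n ≠ 0 → (∃ a ∈ A, ∃ b ∈ A, n = (b : ℤ) - a) → Good T Q R c z n → |X n| ≤ E)
    (S : Finset (ℕ × ℕ)) (hS : ∀ a b : ℕ, (a, b) ∈ S ↔ (a ∈ A ∧ b ∈ A) ∧ a ≠ b ∧ Good T Q R c z ((b : ℤ) - a)) :
    PS A F ≤ D0 ^ 2 * A.card + E ^ 2 * S.card := by
  have hpt : ∀ a ∈ A, ∀ b ∈ A, F ((b : ℤ) - a) ≤ (if a = b then D0 ^ 2 else 0) +
      (if (a, b) ∈ S then E ^ 2 else 0) := by
    intro a ha b hb
    refine (hF _).trans ?_
    by_cases hab : a = b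
    · subst hab
      rw [if_pos (rfl : a = a), if_neg (fun h => ((hS a a).1 h).2.1 rfl), add_zero, sub_self]
      split_ifs
      · rw [← sq_abs]
        exact pow_le_pow_left₀ (abs_nonneg _) h0 2
      · positivity
    · rw [if_neg hab, zero_add]
      by_cases hg : Good T Q R c z ((b : ℤ) - a)
      · rw [if_pos hg, if_pos ((hS a b).2 ⟨⟨ha, hb⟩, hab, hg⟩), ← sq_abs]
        apply pow_le_pow_left₀ (abs_nonneg _)
        apply h1 _ _ ⟨a, ha, b, hb, rfl⟩ hg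
        intro h
        apply hab
        omega
      · rw [if_neg hg, if_neg (fun h => hg ((hS a b).1 h).2.2)]
  unfold PS
  refine (sum_le_sum fun a ha => sum_le_sum fun b hb => hpt a ha b hb).trans ?_
  rw [sum_congr rfl fun a _ => sum_add_distrib, sum_add_distrib]
  apply add_le_add
  · have : ∀ a ∈ A, ∑ b ∈ A, (if a = b then D0 ^ 2 else 0) = D0 ^ 2 := by
      intro a ha
      rw [sum_ite_eq A a, if_pos ha]
    rw [sum_congr rfl this, sum_const, nsmul_eq_mul, mul_comm]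
  · have hsub : S ⊆ A ×ˢ A := by
      rintro ⟨a, b⟩ h
      exact mem_product.2 ((hS a b).1 h).1
    have h2 := sum_product A A (fun ab : ℕ × ℕ => if ab ∈ S then E ^ 2 else 0)
    rw [← h2, ← sum_filter, filter_mem_eq_inter, inter_eq_right.2 hsub, sum_const, nsmul_eq_mul, mul_comm]

lemma good_even (even : ∀ p : ℕ, ∀ n : ℤ, T p n ↔ T p (-n)) (Q R : Finset ℕ) (c : ℕ → ℝ) (z : ℕ) (n : ℤ) : Good T Q R c z n ↔ Good T Q R c z (-n) := by
  have key : ∀ n : ℤ, Good T Q R c z n → Good T Q R c z (-n) := by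
    intro n h
    unfold Good at h ⊢
    obtain ⟨h1, h2, h3⟩ := h
    refine ⟨fun q hq h => h1 q hq ((even q n).2 h), fun q hq h => h2 q hq ((even q n).2 h), ?_⟩
    convert h3 using 2
    ext p
    simp only [mem_filter]
    rw [← even p n]
  exact ⟨key n, fun h => by
    have := key (-n) h
    rwa [neg_neg] at this⟩

/-- the weight of a difference -/
noncomputable def om (n : ℤ) : ℝ := 9 ^ (n.natAbs.primeFactors.card)

lemma om_neg (n : ℤ) : om (-n) = om n := by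
  unfold om
  rw [Int.natAbs_neg]

lemma om_pos (n : ℤ) : 0 < om n := by
  unfold om
  positivity

open Classical in
/-- the upper bound for the pair sum -/
lemma pair_upper_w (A Q R : Finset ℕ) (c : ℕ → ℝ) (z : ℕ) (X F : ℤ → ℝ) (D0 : ℝ)
    (hF : ∀ n, F n ≤ if Good T Q R c z n then X n ^ 2 else 0)
    (h0 : |X 0| ≤ D0)
    (h1 : ∀ n : ℤ, n ≠ 0 → Good T Q R c z n → X n ^ 2 ≤ om n) :
    PS A F ≤ D0 ^ 2 * A.card + ∑ x ∈ (A ×ˢ A).filter (fun x : ℕ × ℕ => x.1 ≠ x.2 ∧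
      Good T Q R c z ((x.2 : ℤ) - x.1)), om ((x.2 : ℤ) - x.1) := by
  have hpt : ∀ a ∈ A, ∀ b ∈ A, F ((b : ℤ) - a) ≤ (if a = b then D0 ^ 2 else 0) +
      (if a ≠ b ∧ Good T Q R c z ((b : ℤ) - a) then om ((b : ℤ) - a) else 0) := by
    intro a _ b _
    refine (hF _).trans ?_
    by_cases hab : a = b
    · subst hab
      rw [if_pos (rfl : a = a), if_neg (fun h : a ≠ a ∧ Good T Q R c z ((a : ℤ) - a) => h.1 rfl), add_zero, sub_self]
      split_ifs
      · rw [← sq_abs]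
        exact pow_le_pow_left₀ (abs_nonneg _) h0 2
      · positivity
    · rw [if_neg hab, zero_add]
      by_cases hg : Good T Q R c z ((b : ℤ) - a)
      · rw [if_pos hg, if_pos ⟨hab, hg⟩]
        apply h1 _ _ hg
        intro h
        apply hab
        omega
      · rw [if_neg hg, if_neg (fun h => hg h.2)]
  unfold PS
  refine (sum_le_sum fun a ha => sum_le_sum fun b hb => hpt a ha b hb).trans ?_
  rw [sum_congr rfl fun a _ => sum_add_distrib, sum_add_distrib]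
  apply add_le_add
  · have : ∀ a ∈ A, ∑ b ∈ A, (if a = b then D0 ^ 2 else 0) = D0 ^ 2 := by
      intro a ha
      rw [sum_ite_eq A a, if_pos ha]
    rw [sum_congr rfl this, sum_const, nsmul_eq_mul, mul_comm]
  · rw [sum_filter, ← sum_product']

open Classical in
/-- the two orders of a pair -/
lemma pair_sym (A : Finset ℕ) (P : ℤ → Prop) (hP : ∀ n, P n ↔ P (-n)) :
    ∑ x ∈ (A ×ˢ A).filter (fun x : ℕ × ℕ => x.1 ≠ x.2 ∧ P ((x.2 : ℤ) - x.1)), om ((x.2 : ℤ) - x.1) =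
    2 * ∑ x ∈ (A ×ˢ A).filter (fun x : ℕ × ℕ => x.1 < x.2 ∧ P ((x.2 : ℤ) - x.1)), om ((x.2 : ℤ) - x.1) := by
  have h1 : (A ×ˢ A).filter (fun x : ℕ × ℕ => x.1 ≠ x.2 ∧ P ((x.2 : ℤ) - x.1)) =
      (A ×ˢ A).filter (fun x : ℕ × ℕ => x.1 < x.2 ∧ P ((x.2 : ℤ) - x.1)) ∪
      (A ×ˢ A).filter (fun x : ℕ × ℕ => x.2 < x.1 ∧ P ((x.2 : ℤ) - x.1)) := by
    ext ⟨a, b⟩
    simp only [mem_union, mem_filter, mem_product]
    constructor
    · rintro ⟨hA, hne, hq⟩
      rcases lt_or_gt_of_ne hne with h | h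
      · exact Or.inl ⟨hA, h, hq⟩
      · exact Or.inr ⟨hA, h, hq⟩
    · rintro (⟨hA, h, hq⟩ | ⟨hA, h, hq⟩)
      · exact ⟨hA, h.ne, hq⟩
      · exact ⟨hA, h.ne', hq⟩
  have h2 : ∑ x ∈ (A ×ˢ A).filter (fun x : ℕ × ℕ => x.2 < x.1 ∧ P ((x.2 : ℤ) - x.1)), om ((x.2 : ℤ) - x.1) =
      ∑ x ∈ (A ×ˢ A).filter (fun x : ℕ × ℕ => x.1 < x.2 ∧ P ((x.2 : ℤ) - x.1)), om ((x.2 : ℤ) - x.1) := by
    apply sum_bij (fun x _ => (x.2, x.1))
    · rintro ⟨a, b⟩ h
      simp only [mem_filter, mem_product] at h ⊢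
      refine ⟨⟨h.1.2, h.1.1⟩, h.2.1, ?_⟩
      rw [hP, neg_sub]
      exact h.2.2
    · rintro ⟨a, b⟩ _ ⟨c, d⟩ _ h
      simp only [Prod.mk.injEq] at h
      rw [Prod.mk.injEq]
      exact ⟨h.2, h.1⟩
    · rintro ⟨a, b⟩ h
      refine ⟨(b, a), ?_, rfl⟩
      simp only [mem_filter, mem_product] at h ⊢
      refine ⟨⟨h.1.2, h.1.1⟩, h.2.1, ?_⟩
      rw [hP, neg_sub]
      exact h.2.2
    · rintro ⟨a, b⟩ _
      simp only
      rw [← om_neg, neg_sub]
  rw [h1, sum_union, h2, two_mul]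
  rw [disjoint_left]
  rintro ⟨a, b⟩ h h'
  simp only [mem_filter] at h h'
  omega

/-- the bound for the weight of a good difference -/
lemma Lam_om (z : ℕ) (L : ℝ) (hL : 0 < L) (n : ℤ) (hn : n ≠ 0) (hgood : ∀ q ∈ Pz z, ¬ T q n) :
    Lam (Pz z) L (2 : ℕ) T n ^ 2 ≤ om n := by
  classical
  obtain ⟨h0, h1⟩ := Lam_nonneg_le (Pz z) L (2 : ℕ) hL (Nat.cast_nonneg 2) T n hgood
  have h2 : ∏ p ∈ Pz z, (if (p : ℤ) ∣ n then 1 + ((2 : ℕ) : ℝ) else 1) ≤ 3 ^ (n.natAbs.primeFactors.card) := by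
    rw [prod_ite, prod_const, prod_const_one, mul_one]
    have e : (1 + ((2 : ℕ) : ℝ)) = 3 := by norm_num
    rw [e]
    apply pow_le_pow_right₀ (by norm_num)
    apply card_le_card
    intro p hp
    obtain ⟨hp1, hp2⟩ := mem_filter.1 hp
    rw [Nat.mem_primeFactors]
    exact ⟨(mem_filter.1 hp1).2, Int.natCast_dvd.1 hp2, Int.natAbs_ne_zero.2 hn⟩
  calc Lam (Pz z) L (2 : ℕ) T n ^ 2 ≤ (3 ^ (n.natAbs.primeFactors.card)) ^ 2 :=
        pow_le_pow_left₀ h0 (h1.trans h2) 2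
    _ = om n := by
        unfold om
        rw [← pow_mul, mul_comm, pow_mul]
        norm_num

end Pool.Agent.H16.P4
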