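import Pool.Agent.H31.P3.End

/-! # Square factors and the number of the prime factors, for `a n ^ 2 + c` -/

set_option autoImplicit false

open Finset Filter

namespace Pool.Agent.H16.P4

open Pool.Agent.H31.P3 (class_card ineq)

/-- the roots modulo the square of a prime -/
lemma roots_card' (a c : ℤ) (N p : ℕ) (hp : p.Prime) (hac : ¬ (p : ℤ) ∣ 2 * a * c) :
    ((Icc 1 N).filter (fun n : ℕ => (p : ℤ) ^ 2 ∣ a * (n : ℤ) ^ 2 + c)).card ≤ 2 * (N / p ^ 2 + 1) := by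
  classical
  set S := (Icc 1 N).filter (fun n : ℕ => (p : ℤ) ^ 2 ∣ a * (n : ℤ) ^ 2 + c) with hS
  have hpZ : Prime (p : ℤ) := Nat.prime_iff_prime_int.1 hp
  have hd : 0 < p ^ 2 := by
    have := hp.pos
    positivity
  have ha : ¬ (p : ℤ) ∣ a := fun h => hac ((h.mul_left 2).mul_right c)
  have hc : ¬ (p : ℤ) ∣ c := fun h => hac (h.mul_left _)
  have h2 : ¬ (p : ℤ) ∣ 2 := fun h => hac ((h.mul_right a).mul_right c)
  rcases S.eq_empty_or_nonempty with h0 | ⟨n0, hn0⟩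
  · rw [h0, card_empty]
    exact Nat.zero_le _
  have hmem : ∀ n ∈ S, n ≤ N ∧ (p : ℤ) ^ 2 ∣ a * (n : ℤ) ^ 2 + c := by
    intro n hn
    rw [hS, mem_filter, mem_Icc] at hn
    exact ⟨hn.1.2, hn.2⟩
  have hpn : ∀ n : ℕ, (p : ℤ) ^ 2 ∣ a * (n : ℤ) ^ 2 + c → ¬ (p : ℤ) ∣ n := by
    intro n hn h1
    have h2 : (p : ℤ) ∣ a * (n : ℤ) ^ 2 + c := (dvd_pow_self _ two_ne_zero).trans hn
    have h3 : (p : ℤ) ∣ a * (n : ℤ) ^ 2 := (h1.trans (dvd_pow_self _ two_ne_zero)).mul_left a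
    exact hc ((dvd_add_right h3).1 h2)
  have hcopa : IsCoprime ((p : ℤ) ^ 2) a := IsCoprime.pow_left ((Prime.coprime_iff_not_dvd hpZ).2 ha)
  have hsplit : ∀ n ∈ S, ((p ^ 2 : ℕ) : ℤ) ∣ (n : ℤ) - n0 ∨ ((p ^ 2 : ℕ) : ℤ) ∣ (n : ℤ) + n0 := by
    intro n hn
    have h1 : (p : ℤ) ^ 2 ∣ ((n : ℤ) - n0) * (n + n0) := by
      have a3 := dvd_sub (hmem n hn).2 (hmem n0 hn0).2
      have e1 : a * (n : ℤ) ^ 2 + c - (a * (n0 : ℤ) ^ 2 + c) = a * (((n : ℤ) - n0) * (n + n0)) := by ring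
      rw [e1] at a3
      exact hcopa.dvd_of_dvd_mul_left a3
    push_cast
    by_cases h3 : (p : ℤ) ∣ (n : ℤ) - n0
    · left
      have h4 : ¬ (p : ℤ) ∣ (n : ℤ) + n0 := by
        intro h4
        have h5 : (p : ℤ) ∣ 2 * n := by
          have := dvd_add h3 h4
          have e1 : (n : ℤ) - n0 + (n + n0) = 2 * n := by ring
          rwa [e1] at this
        rcases hpZ.dvd_or_dvd h5 with h6 | h6
        · exact h2 h6
        · exact hpn n (hmem n hn).2 h6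
      have hcop : IsCoprime ((p : ℤ) ^ 2) ((n : ℤ) + n0) := by
        apply IsCoprime.pow_left
        exact (Prime.coprime_iff_not_dvd hpZ).2 h4
      exact hcop.dvd_of_dvd_mul_right h1
    · right
      have hcop : IsCoprime ((p : ℤ) ^ 2) ((n : ℤ) - n0) := by
        apply IsCoprime.pow_left
        exact (Prime.coprime_iff_not_dvd hpZ).2 h3
      exact hcop.dvd_of_dvd_mul_left h1
  have hcov : S ⊆ (S.filter (fun n => ((p ^ 2 : ℕ) : ℤ) ∣ (n : ℤ) - n0)) ∪ (S.filter (fun n => ((p ^ 2 : ℕ) : ℤ) ∣ (n : ℤ) + n0)) := by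
    intro n hn
    rcases hsplit n hn with h | h
    · exact mem_union_left _ (mem_filter.2 ⟨hn, h⟩)
    · exact mem_union_right _ (mem_filter.2 ⟨hn, h⟩)
  have hcong : ∀ n n' : ℕ, ((p ^ 2 : ℕ) : ℤ) ∣ (n : ℤ) - n' → n % p ^ 2 = n' % p ^ 2 := by
    intro n n' h
    have : n ≡ n' [MOD p ^ 2] := by
      apply Nat.ModEq.symm
      exact (Nat.modEq_iff_dvd).2 h
    exact this
  have c1 := class_card N (p ^ 2) hd (S.filter (fun n => ((p ^ 2 : ℕ) : ℤ) ∣ (n : ℤ) - n0))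
    (fun n hn => (hmem n (mem_filter.1 hn).1).1) (by
      intro n hn n' hn'
      apply hcong
      have := dvd_sub (mem_filter.1 hn).2 (mem_filter.1 hn').2
      have e1 : (n : ℤ) - n0 - (n' - n0) = n - n' := by ring
      rwa [e1] at this)
  have c2 := class_card N (p ^ 2) hd (S.filter (fun n => ((p ^ 2 : ℕ) : ℤ) ∣ (n : ℤ) + n0))
    (fun n hn => (hmem n (mem_filter.1 hn).1).1) (by
      intro n hn n' hn'
      apply hcong
      have := dvd_sub (mem_filter.1 hn).2 (mem_filter.1 hn').2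
      have e1 : (n : ℤ) + n0 - (n' + n0) = n - n' := by ring
      rwa [e1] at this)
  have h := (card_le_card hcov).trans (card_union_le _ _)
  omega

open Classical in
theorem squares' (a c : ℤ) (hac : a * c ≠ 0) : ∃ N₀ : ℕ, ∀ N : ℕ, N₀ ≤ N → ∀ A ⊆ Finset.Icc 1 N,
    (((A ×ˢ A).filter (fun x : ℕ × ℕ => x.1 < x.2 ∧ ∃ p : ℕ, p.Prime ∧ (N : ℝ) ^ (0.1 : ℝ) < p ∧
      (p : ℝ) ≤ (N : ℝ) ^ (0.99 : ℝ) ∧ (p : ℤ) ^ 2 ∣ a * ((x.2 : ℤ) - x.1) ^ 2 + c)).card : ℝ) ≤ A.card * (N : ℝ) ^ (0.995 : ℝ) := by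
  have ev : ∀ᶠ N : ℕ in atTop, (((2 * a * c).natAbs : ℕ) : ℝ) ≤ (N : ℝ) ^ (0.1 : ℝ) :=
    ((tendsto_rpow_atTop (by norm_num)).comp tendsto_natCast_atTop_atTop).eventually_ge_atTop _
  obtain ⟨N₀, hN₀⟩ := eventually_atTop.1 ((ineq.and (eventually_ge_atTop 1)).and ev)
  refine ⟨N₀, fun N hN A hA => ?_⟩
  obtain ⟨⟨hineq, hN1⟩, hbig⟩ := hN₀ N hN
  have hN1r : (1 : ℝ) ≤ N := by exact_mod_cast hN1
  have hN0 : (0 : ℝ) < N := by linarith
  have h2ac : 2 * a * c ≠ 0 := by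
    intro h
    apply hac
    have : 2 * (a * c) = 0 := by rw [← h]; ring
    omega
  -- the bad differences
  set P : Finset ℕ := (Icc 1 ⌊(N : ℝ) ^ (0.99 : ℝ)⌋₊).filter (fun p => p.Prime ∧ (N : ℝ) ^ (0.1 : ℝ) < p) with hP
  have hndvd : ∀ p ∈ P, ¬ (p : ℤ) ∣ 2 * a * c := by
    intro p hp h
    rw [hP, mem_filter] at hp
    have h1 : p ∣ (2 * a * c).natAbs := Int.natCast_dvd.1 h
    have h2 := Nat.le_of_dvd (Int.natAbs_pos.2 h2ac) h1
    have h3 : (p : ℝ) ≤ (((2 * a * c).natAbs : ℕ) : ℝ) := by exact_mod_cast h2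
    linarith [hp.2.2]
  set Bd : Finset ℕ := (Icc 1 N).filter (fun n : ℕ => ∃ p ∈ P, (p : ℤ) ^ 2 ∣ a * (n : ℤ) ^ 2 + c) with hBd
  have h1 : (((A ×ˢ A).filter (fun x : ℕ × ℕ => x.1 < x.2 ∧ ∃ p : ℕ, p.Prime ∧ (N : ℝ) ^ (0.1 : ℝ) < p ∧
      (p : ℝ) ≤ (N : ℝ) ^ (0.99 : ℝ) ∧ (p : ℤ) ^ 2 ∣ a * ((x.2 : ℤ) - x.1) ^ 2 + c)).card) ≤ (A ×ˢ Bd).card := by
    apply card_le_card_of_injOn (fun x => (x.1, x.2 - x.1))
    · intro x hx
      rw [mem_coe, mem_filter, mem_product] at hx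
      obtain ⟨⟨hx1, hx2⟩, hlt, p, hp, hp1, hp2, hdvd⟩ := hx
      have a1 := mem_Icc.1 (hA hx1)
      have a2 := mem_Icc.1 (hA hx2)
      rw [mem_coe, mem_product, hBd, mem_filter, mem_Icc]
      refine ⟨hx1, ⟨by simp only; omega, by simp only; omega⟩, p, ?_, ?_⟩
      · rw [hP, mem_filter, mem_Icc]
        exact ⟨⟨hp.one_lt.le, Nat.le_floor hp2⟩, hp, hp1⟩
      · simp only
        rw [Nat.cast_sub hlt.le]
        exact hdvd
    · intro x hx y hy h
      rw [mem_coe, mem_filter] at hx hy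
      simp only [Prod.mk.injEq] at h
      ext
      · exact h.1
      · have := hx.2.1
        have := hy.2.1
        omega
  have h2 : (Bd.card : ℝ) ≤ (N : ℝ) ^ (0.995 : ℝ) := by
    have b1 : Bd.card ≤ ∑ p ∈ P, 2 * (N / p ^ 2 + 1) := by
      have hsub : Bd ⊆ P.biUnion (fun p => (Icc 1 N).filter (fun n : ℕ => (p : ℤ) ^ 2 ∣ a * (n : ℤ) ^ 2 + c)) := by
        intro n hn
        rw [hBd, mem_filter] at hn
        obtain ⟨hn1, p, hp, hd⟩ := hn
        rw [mem_biUnion]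
        exact ⟨p, hp, mem_filter.2 ⟨hn1, hd⟩⟩
      refine (card_le_card hsub).trans (card_biUnion_le.trans (sum_le_sum fun p hp => ?_))
      exact roots_card' a c N p (mem_filter.1 hp).2.1 (hndvd p hp)
    have b2 : (Bd.card : ℝ) ≤ ∑ p ∈ P, (2 * ((N : ℝ) ^ (0.9 : ℝ) * (1 / p)) + 2) := by
      have : (Bd.card : ℝ) ≤ ((∑ p ∈ P, 2 * (N / p ^ 2 + 1) : ℕ) : ℝ) := by exact_mod_cast b1
      refine this.trans ?_
      push_cast
      apply sum_le_sum
      intro p hp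
      rw [hP, mem_filter] at hp
      have hp0 : (0 : ℝ) < p := by exact_mod_cast hp.2.1.pos
      have hp1 : (N : ℝ) ^ (0.1 : ℝ) ≤ p := hp.2.2.le
      have c1 : ((N / p ^ 2 : ℕ) : ℝ) ≤ (N : ℝ) / p ^ 2 := by
        have := @Nat.cast_div_le ℝ _ _ _ N (p ^ 2)
        push_cast at this
        exact this
      have c2 : (N : ℝ) / p ^ 2 ≤ (N : ℝ) ^ (0.9 : ℝ) * (1 / p) := by
        rw [div_le_iff₀ (by positivity)]
        have c3 : (N : ℝ) ^ (0.9 : ℝ) * (1 / p) * p ^ 2 = (N : ℝ) ^ (0.9 : ℝ) * p := by field_simp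
        rw [c3]
        calc (N : ℝ) = (N : ℝ) ^ (0.9 : ℝ) * (N : ℝ) ^ (0.1 : ℝ) := by
              rw [← Real.rpow_add hN0]; norm_num
          _ ≤ _ := mul_le_mul_of_nonneg_left hp1 (by positivity)
      linarith
    refine b2.trans (le_trans ?_ hineq)
    rw [sum_add_distrib, ← mul_sum, ← mul_sum, sum_const, nsmul_eq_mul]
    have c4 : ∑ p ∈ P, (1 : ℝ) / p ≤ 1 + Real.log N := by
      have d1 : ∑ p ∈ P, (1 : ℝ) / p ≤ ∑ p ∈ Icc 1 N, (1 : ℝ) / p := by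
        apply sum_le_sum_of_subset_of_nonneg
        · intro p hp
          rw [hP, mem_filter, mem_Icc] at hp
          rw [mem_Icc]
          refine ⟨hp.1.1, hp.1.2.trans ?_⟩
          apply Nat.floor_le_of_le
          calc (N : ℝ) ^ (0.99 : ℝ) ≤ (N : ℝ) ^ (1 : ℝ) := Real.rpow_le_rpow_of_exponent_le hN1r (by norm_num)
            _ = N := Real.rpow_one _
        · intro _ _ _; positivity
      refine d1.trans ?_
      have d2 := harmonic_le_one_add_log N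
      rw [harmonic_eq_sum_Icc] at d2
      push_cast at d2
      simpa [one_div] using d2
    have c5 : (P.card : ℝ) ≤ (N : ℝ) ^ (0.99 : ℝ) := by
      have d1 : P.card ≤ ⌊(N : ℝ) ^ (0.99 : ℝ)⌋₊ := by
        refine (card_filter_le _ _).trans ?_
        rw [Nat.card_Icc]
        omega
      have d2 : (P.card : ℝ) ≤ (⌊(N : ℝ) ^ (0.99 : ℝ)⌋₊ : ℝ) := by exact_mod_cast d1
      exact d2.trans (Nat.floor_le (by positivity))
    have c6 : 0 ≤ (N : ℝ) ^ (0.9 : ℝ) := by positivity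
    nlinarith
  calc (((A ×ˢ A).filter (fun x : ℕ × ℕ => x.1 < x.2 ∧ ∃ p : ℕ, p.Prime ∧ (N : ℝ) ^ (0.1 : ℝ) < p ∧
      (p : ℝ) ≤ (N : ℝ) ^ (0.99 : ℝ) ∧ (p : ℤ) ^ 2 ∣ a * ((x.2 : ℤ) - x.1) ^ 2 + c)).card : ℝ) ≤ ((A ×ˢ Bd).card : ℝ) := by
        exact_mod_cast h1
    _ = A.card * Bd.card := by rw [card_product]; push_cast; ring
    _ ≤ _ := mul_le_mul_of_nonneg_left h2 (Nat.cast_nonneg _)

/-- a number up to `N ^ 2` with large prime factors and small weight has at most three prime factors -/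
theorem omega3' (N : ℕ) (hN : 2 ≤ N) (m : ℕ) (hm0 : m ≠ 0) (hmN : (m : ℝ) ≤ (N : ℝ) ^ 2)
    (hbig : ∀ p : ℕ, p.Prime → p ∣ m → (N : ℝ) ^ (0.1 : ℝ) < p)
    (hsq : ∀ p : ℕ, p.Prime → (p : ℝ) ≤ (N : ℝ) ^ (0.99 : ℝ) → ¬ p ^ 2 ∣ m)
    (hsum : ∑ p ∈ m.primeFactors.filter (fun p : ℕ => Real.log p ≤ 10 / 11 * Real.log N),
      (5 / 9 * (1 - 1.1 * Real.log ((p : ℕ) : ℝ) / Real.log N)) < 1) :
    ArithmeticFunction.cardFactors m ≤ 3 := by
  have hN2 : (2 : ℝ) ≤ N := by exact_mod_cast hN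
  have hN1 : (1 : ℝ) ≤ N := by linarith
  have hN0 : (0 : ℝ) < N := by linarith
  have hlog : 0 < Real.log N := Real.log_pos (by linarith)
  by_cases hsf : Squarefree m
  · have hcard : ArithmeticFunction.cardFactors m = m.primeFactors.card := by
      rw [← (ArithmeticFunction.cardDistinctFactors_eq_cardFactors_iff_squarefree hm0).2 hsf]
      rfl
    rw [hcard]
    set PF := m.primeFactors with hPF
    have hlogsum : ∑ p ∈ PF, Real.log p = Real.log (m : ℝ) := by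
      have h1 : ∏ p ∈ PF, p = m := Nat.prod_primeFactors_of_squarefree hsf
      calc ∑ p ∈ PF, Real.log p = Real.log (∏ p ∈ PF, (p : ℝ)) := by
            rw [Real.log_prod]
            intro p hp
            have := (Nat.prime_of_mem_primeFactors hp).pos
            positivity
        _ = Real.log ((∏ p ∈ PF, p : ℕ) : ℝ) := by push_cast; rfl
        _ = _ := by rw [h1]
    have hlog2 : Real.log (m : ℝ) ≤ 2 * Real.log N := by
      have hm1 : (0 : ℝ) < m := by exact_mod_cast Nat.pos_of_ne_zero hm0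
      calc Real.log (m : ℝ) ≤ Real.log ((N : ℝ) ^ 2) := Real.log_le_log hm1 hmN
        _ = 2 * Real.log N := by rw [Real.log_pow]; norm_num
    have hall : (PF.card : ℝ) - 2.2 ≤ ∑ p ∈ PF, (1 - 1.1 * Real.log p / Real.log N) := by
      rw [sum_sub_distrib]
      simp only [sum_const, nsmul_eq_mul, mul_one]
      rw [← sum_div, ← mul_sum, hlogsum]
      have : 1.1 * Real.log (m : ℝ) / Real.log N ≤ 2.2 := by
        rw [div_le_iff₀ hlog]
        linarith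
      linarith
    have hrest : ∑ p ∈ PF, (1 - 1.1 * Real.log p / Real.log N) ≤
        ∑ p ∈ PF.filter (fun p : ℕ => Real.log p ≤ 10 / 11 * Real.log N), (1 - 1.1 * Real.log p / Real.log N) := by
      rw [← sum_filter_add_sum_filter_not PF (fun p : ℕ => Real.log p ≤ 10 / 11 * Real.log N)]
      have : ∑ p ∈ PF.filter (fun p : ℕ => ¬ Real.log p ≤ 10 / 11 * Real.log N), (1 - 1.1 * Real.log p / Real.log N) ≤ 0 := by
        apply sum_nonpos
        intro p hp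
        rw [mem_filter, not_le] at hp
        have h1 : 1 ≤ 1.1 * Real.log p / Real.log N := by
          rw [le_div_iff₀ hlog]
          have := hp.2
          norm_num at this ⊢
          linarith
        linarith
      linarith
    have hlt : ∑ p ∈ PF.filter (fun p : ℕ => Real.log p ≤ 10 / 11 * Real.log N), (1 - 1.1 * Real.log p / Real.log N) < 9 / 5 := by
      rw [← mul_sum] at hsum
      linarith
    have hfin : (PF.card : ℝ) < 4 := by
      have : (PF.card : ℝ) - 2.2 < 9 / 5 := lt_of_le_of_lt (hall.trans hrest) hlt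
      linarith
    have : PF.card < 4 := by exact_mod_cast hfin
    omega
  · rw [Nat.squarefree_iff_prime_squarefree] at hsf
    push Not at hsf
    obtain ⟨p, hp, hdvd⟩ := hsf
    rw [← pow_two] at hdvd
    rcases le_or_gt (p : ℝ) ((N : ℝ) ^ (0.99 : ℝ)) with h1 | h1
    · exact absurd hdvd (hsq p hp h1)
    · obtain ⟨q, hq⟩ := hdvd
      have hq0 : q ≠ 0 := by
        rintro rfl
        omega
      by_cases hq1 : q = 1
      · rw [hq, hq1, mul_one, ArithmeticFunction.cardFactors_apply_prime_pow hp]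
        norm_num
      · exfalso
        obtain ⟨l, hl, hlq⟩ := Nat.exists_prime_and_dvd hq1
        have h2 := hbig l hl (hq ▸ (hlq.trans (Dvd.intro_left _ rfl)))
        have h3 : (l : ℝ) ≤ q := by exact_mod_cast Nat.le_of_dvd (Nat.pos_of_ne_zero hq0) hlq
        have hqr : (p : ℝ) ^ 2 * q ≤ (N : ℝ) ^ 2 := by
          have : (m : ℝ) = (p : ℝ) ^ 2 * q := by rw [hq]; push_cast; ring
          rw [← this]; exact hmN
        have h4 : (N : ℝ) ^ (1.98 : ℝ) ≤ (p : ℝ) ^ 2 := by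
          calc (N : ℝ) ^ (1.98 : ℝ) = ((N : ℝ) ^ (0.99 : ℝ)) ^ 2 := by
                rw [← Real.rpow_natCast, ← Real.rpow_mul hN0.le]; norm_num
            _ ≤ _ := pow_le_pow_left₀ (by positivity) h1.le 2
        have h5 : (N : ℝ) ^ (0.1 : ℝ) < q := lt_of_lt_of_le h2 h3
        have h6 : (N : ℝ) ^ 2 < (p : ℝ) ^ 2 * q := by
          calc (N : ℝ) ^ 2 = (N : ℝ) ^ (2 : ℝ) := by norm_cast
            _ ≤ (N : ℝ) ^ (2.08 : ℝ) := Real.rpow_le_rpow_of_exponent_le hN1 (by norm_num)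
            _ = (N : ℝ) ^ (1.98 : ℝ) * (N : ℝ) ^ (0.1 : ℝ) := by rw [← Real.rpow_add hN0]; norm_num
            _ < (N : ℝ) ^ (1.98 : ℝ) * q := mul_lt_mul_of_pos_left h5 (by positivity)
            _ ≤ _ := mul_le_mul_of_nonneg_right h4 (Nat.cast_nonneg _)
        linarith

end Pool.Agent.H16.P4
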