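import Pool.Agent.H16.P4.Quad
import Pool.Agent.H16.P4.Sq

/-!
# The weighted number of the pairs at whose differences `a n ^ 2 + c` has at most three prime factors
-/

set_option autoImplicit false

namespace Pool.Agent.H16.P4

open Finset
open Pool.Agent.H14.VC
open Pool.Agent.H16.P3 (Dens RQ IQ)

/-- all prime factors exceed `y`, at most `r` prime factors with multiplicity -/
def AP (y : ℝ) (r : ℕ) (n : ℤ) : Prop :=
  (∀ p : ℕ, p.Prime → (p : ℤ) ∣ n → y < p) ∧ ArithmeticFunction.cardFactors n.natAbs ≤ r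

lemma om_le (δ : ℝ) (hδ : 0 < δ) : ∃ C : ℝ, 1 ≤ C ∧ ∀ n : ℤ, n ≠ 0 → om n ≤ C * (|n| : ℤ) ^ δ := by
  classical
  obtain ⟨C, hC, h⟩ := omega_bound 8 δ hδ
  refine ⟨C, hC, fun n hn => ?_⟩
  have h1 := h n.natAbs.primeFactors (fun p hp => Nat.prime_of_mem_primeFactors hp) n hn
  refine le_trans (le_of_eq ?_) h1
  unfold om
  rw [prod_congr rfl (fun p hp => if_pos (Int.natCast_dvd.2 (Nat.dvd_of_mem_primeFactors hp))), prod_const]
  norm_num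

/-- a good difference without square factors -/
lemma good_AP (a c : ℤ) (N : ℕ) (hN : 2 ≤ N) (z : ℕ) (hz2 : 2 ≤ z)
    (n : ℤ) (hbound : (((a * n ^ 2 + c).natAbs : ℕ) : ℝ) ≤ (N : ℝ) ^ 2)
    (hgood : Good (TQ a c) (QT (TQ a c) z ((N : ℝ) ^ (10 / 11 : ℝ)))
      (RQ (QT (TQ a c) z ((N : ℝ) ^ (10 / 11 : ℝ))) (Real.log N / 10)) (cw4 N) z n)
    (hsq : ∀ p : ℕ, p.Prime → (N : ℝ) ^ (0.1 : ℝ) < p → (p : ℝ) ≤ (N : ℝ) ^ (0.99 : ℝ) →
      ¬ (p : ℤ) ^ 2 ∣ a * n ^ 2 + c) : AP ((N : ℝ) ^ (0.1 : ℝ)) 3 (a * n ^ 2 + c) := by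
  classical
  have hNR : (2 : ℝ) ≤ N := by exact_mod_cast hN
  have hN0 : (0 : ℝ) < N := by linarith
  have hN1 : (1 : ℝ) ≤ N := by linarith
  obtain ⟨q1, q2, q3⟩ := hgood
  set Q := QT (TQ a c) z ((N : ℝ) ^ (10 / 11 : ℝ)) with hQ
  set R := RQ Q (Real.log N / 10) with hR
  obtain ⟨m, hm⟩ : ∃ m : ℕ, m = (a * n ^ 2 + c).natAbs := ⟨_, rfl⟩
  have hdv : ∀ p : ℕ, (p : ℤ) ∣ a * n ^ 2 + c ↔ p ∣ m := by
    intro p
    rw [hm]
    exact Int.natCast_dvd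
  have hm0 : m ≠ 0 := by
    intro h0
    apply q1 2
    · rw [Pz, mem_filter, mem_Icc]
      exact ⟨⟨by norm_num, hz2⟩, Nat.prime_two⟩
    · unfold TQ
      rw [hdv, h0]
      exact dvd_zero _
  have hbig : ∀ p : ℕ, p.Prime → p ∣ m → z < p := by
    intro p hp hd
    by_contra hc
    push Not at hc
    apply q1 p
    · rw [Pz, mem_filter, mem_Icc]
      exact ⟨⟨hp.pos, hc⟩, hp⟩
    · exact (hdv p).2 hd
  have hmemQ : ∀ p : ℕ, p.Prime → p ∣ m → (p : ℝ) ≤ (N : ℝ) ^ (10 / 11 : ℝ) → p ∈ Q := by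
    intro p hp hd hle
    have h1 := hbig p hp hd
    refine mem_filter.2 ⟨mem_Icc.2 ⟨hp.pos, Nat.le_floor hle⟩, hp, h1, ?_⟩
    unfold rhoT
    rw [Ne, card_eq_zero, ← Ne, ← nonempty_iff_ne_empty]
    have hp0 : (p : ℤ) ≠ 0 := by exact_mod_cast hp.ne_zero
    refine ⟨(n % p).toNat, mem_filter.2 ⟨?_, ?_⟩⟩
    · rw [mem_range]
      have h2 := Int.emod_lt_of_pos n (by exact_mod_cast hp.pos : (0 : ℤ) < p)
      have h3 := Int.emod_nonneg n hp0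
      omega
    · rw [TQ_per a c p _ n]
      · exact (hdv p).2 hd
      · rw [Int.toNat_of_nonneg (Int.emod_nonneg n hp0)]
        exact (Int.dvd_sub_self_of_emod_eq rfl)
  have hrough : ∀ p : ℕ, p.Prime → p ∣ m → (N : ℝ) ^ (0.1 : ℝ) < p := by
    intro p hp hd
    by_contra hc
    push Not at hc
    have hp0 : (0 : ℝ) < p := by exact_mod_cast hp.pos
    apply q2 p
    · refine mem_filter.2 ⟨hmemQ p hp hd (hc.trans (Real.rpow_le_rpow_of_exponent_le hN1 (by norm_num))), ?_⟩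
      have h1 := Real.log_le_log hp0 hc
      rw [Real.log_rpow hN0] at h1
      linarith
    · exact (hdv p).2 hd
  refine ⟨fun p hp hd => hrough p hp ((hdv p).1 hd), ?_⟩
  rw [← hm] at hbound ⊢
  apply omega3' N hN m hm0 hbound hrough
  · intro p hp hple hd
    have hpm : p ∣ m := (dvd_pow_self p two_ne_zero).trans hd
    apply hsq p hp (hrough p hp hpm) hple
    have h1 : ((p ^ 2 : ℕ) : ℤ) ∣ a * n ^ 2 + c := by
      rw [Int.natCast_dvd, ← hm]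
      exact hd
    exact_mod_cast h1
  · refine lt_of_le_of_lt (le_of_eq ?_) q3
    apply sum_congr
    · ext p
      rw [mem_filter, mem_filter, mem_sdiff, Nat.mem_primeFactors]
      constructor
      · rintro ⟨⟨hp, hd, _⟩, hl⟩
        have hp0 : (0 : ℝ) < p := by exact_mod_cast hp.pos
        have hple : (p : ℝ) ≤ (N : ℝ) ^ (10 / 11 : ℝ) := by
          rw [← Real.exp_log hp0, Real.rpow_def_of_pos hN0]
          apply Real.exp_le_exp.2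
          linarith
        refine ⟨⟨hmemQ p hp hd hple, ?_⟩, (hdv p).2 hd⟩
        intro h
        have h1 := (mem_filter.1 h).2
        have h2 := Real.log_lt_log (by positivity) (hrough p hp hd)
        rw [Real.log_rpow hN0] at h2
        linarith
      · rintro ⟨⟨hpQ, _⟩, hT⟩
        have h1 := mem_filter.1 hpQ
        have hp := h1.2.1
        refine ⟨⟨hp, (hdv p).1 hT, hm0⟩, ?_⟩
        have h2 := (mem_Icc.1 h1.1).2
        have h3 : (p : ℝ) ≤ (N : ℝ) ^ (10 / 11 : ℝ) := (Nat.le_floor_iff (by positivity)).1 h2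
        have hp0 : (0 : ℝ) < p := by exact_mod_cast hp.pos
        have h4 := Real.log_le_log hp0 h3
        rw [Real.log_rpow hN0] at h4
        exact h4
    · intro p _
      rfl

open Classical in
/-- sets in `[1, M]` -/
theorem power_w_aux : ∃ c₀ : ℝ, 0 < c₀ ∧ ∀ a c : ℤ, IsUnit c → ¬ IsSquare (-(a * c)) →
    ∃ M₀ : ℕ, ∀ M : ℕ, M₀ ≤ M → ∀ A ⊆ Icc 1 M, (M : ℝ) ^ (1 - 0.0000028 : ℝ) ≤ A.card →
      c₀ * (A.card : ℝ) ^ 2 ≤ ∑ x ∈ (A ×ˢ A).filter (fun x : ℕ × ℕ => x.1 < x.2 ∧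
        AP ((M : ℝ) ^ (0.1 : ℝ)) 3 (a * ((x.2 : ℤ) - x.1) ^ 2 + c)), om ((x.2 : ℤ) - x.1) := by
  obtain ⟨c₁, hc₁, H⟩ := good_pairs
  refine ⟨c₁ / 2, by positivity, ?_⟩
  intro a c hc hac
  have ha0 : a ≠ 0 := by
    rintro rfl
    apply hac
    rw [zero_mul, neg_zero]
    exact IsSquare.zero
  have hc0 : c ≠ 0 := hc.ne_zero
  obtain ⟨N₁, hN₁⟩ := H 0.0000029 le_rfl (TQ a c) (TQ_per a c) (TQ_even a c) (TQ_zero a c hc)
    (rho_pos_le a c hc) (densQ a c hc hac (0.0015 / 404) (by norm_num) (by norm_num))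
  obtain ⟨N₂, hN₂⟩ := squares' a c (mul_ne_zero ha0 hc0)
  obtain ⟨C, hC1, hC⟩ := om_le 0.001 (by norm_num)
  obtain ⟨K, hK⟩ : ∃ K : ℕ, K = a.natAbs + 1 := ⟨_, rfl⟩
  have hK1 : 1 ≤ K := by omega
  have hKR : (1 : ℝ) ≤ K := by exact_mod_cast hK1
  have ten : ∀ t : ℝ, 0 < t → ∀ c : ℝ, ∀ᶠ N : ℕ in Filter.atTop, c ≤ (N : ℝ) ^ t := by
    intro t ht c
    exact ((tendsto_rpow_atTop ht).comp tendsto_natCast_atTop_atTop).eventually_ge_atTop c
  obtain ⟨M₁, hM₁⟩ := Filter.eventually_atTop.1 ((ten 0.0000001 (by norm_num) K).and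
    (ten 0.003 (by norm_num) (2 * C / c₁)))
  refine ⟨max (max N₁ N₂) (max M₁ 3), ?_⟩
  intro M hM A hA hAc
  have b1 : N₁ ≤ M := (le_max_left _ _).trans ((le_max_left _ _).trans hM)
  have b2 : N₂ ≤ M := (le_max_right _ _).trans ((le_max_left _ _).trans hM)
  have b3 : M₁ ≤ M := (le_max_left _ _).trans ((le_max_right _ _).trans hM)
  have b4 : 3 ≤ M := (le_max_right _ _).trans ((le_max_right _ _).trans hM)
  obtain ⟨g1, _⟩ := hM₁ M b3
  obtain ⟨N, hN⟩ : ∃ N : ℕ, N = K * M := ⟨_, rfl⟩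
  have hMN : M ≤ N := by rw [hN]; exact Nat.le_mul_of_pos_left _ hK1
  obtain ⟨_, g2⟩ := hM₁ N (b3.trans hMN)
  have hMR : (3 : ℝ) ≤ M := by exact_mod_cast b4
  have hM0 : (0 : ℝ) < M := by linarith
  have hMNR : (M : ℝ) ≤ N := by exact_mod_cast hMN
  have hN0 : (0 : ℝ) < N := by linarith
  have hN1 : (1 : ℝ) ≤ N := by linarith
  have hM1 : (1 : ℝ) ≤ M := by linarith
  have hNK : (N : ℝ) = K * M := by rw [hN]; push_cast; ring
  have hAN : A ⊆ Icc 1 N := hA.trans (Icc_subset_Icc_right hMN)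
  have hAc' : (N : ℝ) ^ (1 - 0.0000029 : ℝ) ≤ A.card := by
    refine le_trans ?_ hAc
    rw [hNK, Real.mul_rpow (by positivity) hM0.le]
    calc (K : ℝ) ^ (1 - 0.0000029 : ℝ) * (M : ℝ) ^ (1 - 0.0000029 : ℝ) ≤
        (K : ℝ) ^ (1 : ℝ) * (M : ℝ) ^ (1 - 0.0000029 : ℝ) := by
          apply mul_le_mul_of_nonneg_right _ (by positivity)
          exact Real.rpow_le_rpow_of_exponent_le hKR (by norm_num)
      _ ≤ (M : ℝ) ^ (0.0000001 : ℝ) * (M : ℝ) ^ (1 - 0.0000029 : ℝ) := by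
          apply mul_le_mul_of_nonneg_right _ (by positivity)
          rw [Real.rpow_one]
          exact g1
      _ = _ := by
          rw [← Real.rpow_add hM0]
          norm_num
  obtain ⟨z, hz2, _, hgood⟩ := hN₁ N (b1.trans hMN)
  have hg := hgood A hAN hAc'
  have hs := hN₂ N (b2.trans hMN) A hAN
  set Q := QT (TQ a c) z ((N : ℝ) ^ (10 / 11 : ℝ)) with hQ
  set R := RQ Q (Real.log N / 10) with hR
  set G1 := (A ×ˢ A).filter (fun x : ℕ × ℕ => x.1 < x.2 ∧ Good (TQ a c) Q R (cw4 N) z ((x.2 : ℤ) - x.1)) with hG1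
  set B1 := (A ×ˢ A).filter (fun x : ℕ × ℕ => x.1 < x.2 ∧ ∃ p : ℕ, p.Prime ∧ (N : ℝ) ^ (0.1 : ℝ) < p ∧
        (p : ℝ) ≤ (N : ℝ) ^ (0.99 : ℝ) ∧ (p : ℤ) ^ 2 ∣ a * ((x.2 : ℤ) - x.1) ^ 2 + c) with hB1
  have hnlt : ∀ x ∈ A ×ˢ A, x.1 < x.2 → 0 < (x.2 : ℤ) - x.1 ∧ (x.2 : ℤ) - x.1 < M := by
    intro x hx hlt
    obtain ⟨h1, h2⟩ := mem_product.1 hx
    have h3 := mem_Icc.1 (hA h1)
    have h4 := mem_Icc.1 (hA h2)
    omega
  -- the bad part
  have hbad : ∑ x ∈ B1, om ((x.2 : ℤ) - x.1) ≤ c₁ / 2 * (A.card : ℝ) ^ 2 := by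
    have h1 : ∀ x ∈ B1, om ((x.2 : ℤ) - x.1) ≤ C * (N : ℝ) ^ (0.001 : ℝ) := by
      intro x hx
      obtain ⟨hx1, hx2, _⟩ := mem_filter.1 hx
      obtain ⟨h2, h3⟩ := hnlt x hx1 hx2
      refine (hC _ h2.ne').trans ?_
      apply mul_le_mul_of_nonneg_left _ (by linarith)
      apply Real.rpow_le_rpow (by positivity) _ (by norm_num)
      have h4 : |(x.2 : ℤ) - x.1| ≤ (N : ℤ) := by
        rw [abs_of_pos h2]
        have : (M : ℤ) ≤ N := by exact_mod_cast hMN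
        omega
      exact_mod_cast h4
    have h2 := sum_le_card_nsmul B1 _ _ h1
    rw [nsmul_eq_mul] at h2
    have h3 : (B1.card : ℝ) ≤ A.card * (N : ℝ) ^ (0.995 : ℝ) := by
      convert hs using 3
    have h4 : (N : ℝ) ^ (0.999 : ℝ) ≤ A.card :=
      (Real.rpow_le_rpow_of_exponent_le hN1 (by norm_num)).trans hAc'
    have h5 : 2 * C / c₁ * ((N : ℝ) ^ (0.995 : ℝ) * (N : ℝ) ^ (0.001 : ℝ)) ≤ A.card := by
      refine le_trans ?_ h4
      calc 2 * C / c₁ * ((N : ℝ) ^ (0.995 : ℝ) * (N : ℝ) ^ (0.001 : ℝ)) ≤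
          (N : ℝ) ^ (0.003 : ℝ) * ((N : ℝ) ^ (0.995 : ℝ) * (N : ℝ) ^ (0.001 : ℝ)) :=
            mul_le_mul_of_nonneg_right g2 (by positivity)
        _ = _ := by
            rw [← Real.rpow_add hN0, ← Real.rpow_add hN0]
            norm_num
    have h6 : C * ((N : ℝ) ^ (0.995 : ℝ) * (N : ℝ) ^ (0.001 : ℝ)) ≤ c₁ / 2 * A.card := by
      have h7 : C * ((N : ℝ) ^ (0.995 : ℝ) * (N : ℝ) ^ (0.001 : ℝ)) =
          c₁ / 2 * (2 * C / c₁ * ((N : ℝ) ^ (0.995 : ℝ) * (N : ℝ) ^ (0.001 : ℝ))) := by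
        field_simp
      rw [h7]
      exact mul_le_mul_of_nonneg_left h5 (by positivity)
    calc ∑ x ∈ B1, om ((x.2 : ℤ) - x.1) ≤ B1.card * (C * (N : ℝ) ^ (0.001 : ℝ)) := h2
      _ ≤ (A.card * (N : ℝ) ^ (0.995 : ℝ)) * (C * (N : ℝ) ^ (0.001 : ℝ)) :=
          mul_le_mul_of_nonneg_right h3 (by positivity)
      _ = A.card * (C * ((N : ℝ) ^ (0.995 : ℝ) * (N : ℝ) ^ (0.001 : ℝ))) := by ring
      _ ≤ A.card * (c₁ / 2 * A.card) := mul_le_mul_of_nonneg_left h6 (Nat.cast_nonneg _)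
      _ = _ := by ring
  -- the good part
  have hsub : G1 ⊆ ((A ×ˢ A).filter (fun x : ℕ × ℕ => x.1 < x.2 ∧
        AP ((M : ℝ) ^ (0.1 : ℝ)) 3 (a * ((x.2 : ℤ) - x.1) ^ 2 + c))) ∪ B1 := by
    intro x hx
    by_cases hxB : x ∈ B1
    · exact mem_union_right _ hxB
    · apply mem_union_left
      obtain ⟨hx1, hx2, hx3⟩ := mem_filter.1 hx
      obtain ⟨hn0, hnM⟩ := hnlt x hx1 hx2
      have hap := good_AP a c N (by omega) z hz2 ((x.2 : ℤ) - x.1) (by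
        obtain ⟨n, hn⟩ : ∃ n : ℤ, n = (x.2 : ℤ) - x.1 := ⟨_, rfl⟩
        rw [← hn] at hn0 hnM ⊢
        have h1 : (a * n ^ 2 + c).natAbs ≤ N ^ 2 := by
          have h2 : (a * n ^ 2 + c).natAbs ≤ a.natAbs * n.natAbs ^ 2 + 1 := by
            refine (Int.natAbs_add_le _ _).trans ?_
            rw [Int.natAbs_mul, Int.natAbs_pow, Int.isUnit_iff_natAbs_eq.1 hc]
          have h3 : n.natAbs < M := by omega
          have h4 : n.natAbs ^ 2 + 1 ≤ M ^ 2 := by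
            have h3' : n.natAbs + 1 ≤ M := h3
            nlinarith [Nat.zero_le n.natAbs]
          refine h2.trans ?_
          rw [hN, hK]
          have h5 : a.natAbs * n.natAbs ^ 2 + 1 ≤ (a.natAbs + 1) * M ^ 2 := by nlinarith
          refine h5.trans ?_
          rw [mul_pow]
          apply Nat.mul_le_mul_right
          nlinarith
        exact_mod_cast h1) hx3 (by
        intro p hp h1 h2 h3
        exact hxB (mem_filter.2 ⟨hx1, hx2, p, hp, h1, h2, h3⟩))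
      refine mem_filter.2 ⟨hx1, hx2, ?_, hap.2⟩
      intro p hp hd
      exact lt_of_le_of_lt (Real.rpow_le_rpow hM0.le hMNR (by norm_num)) (hap.1 p hp hd)
  have hsum : ∑ x ∈ G1, om ((x.2 : ℤ) - x.1) ≤ ∑ x ∈ (A ×ˢ A).filter (fun x : ℕ × ℕ => x.1 < x.2 ∧
        AP ((M : ℝ) ^ (0.1 : ℝ)) 3 (a * ((x.2 : ℤ) - x.1) ^ 2 + c)), om ((x.2 : ℤ) - x.1) +
        ∑ x ∈ B1, om ((x.2 : ℤ) - x.1) := by
    refine (sum_le_sum_of_subset_of_nonneg hsub fun x _ _ => (om_pos _).le).trans ?_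
    have := sum_union_inter (s₁ := (A ×ˢ A).filter (fun x : ℕ × ℕ => x.1 < x.2 ∧
        AP ((M : ℝ) ^ (0.1 : ℝ)) 3 (a * ((x.2 : ℤ) - x.1) ^ 2 + c))) (s₂ := B1)
        (f := fun x : ℕ × ℕ => om ((x.2 : ℤ) - x.1))
    rw [← this]
    have h0 : 0 ≤ ∑ x ∈ (A ×ˢ A).filter (fun x : ℕ × ℕ => x.1 < x.2 ∧
        AP ((M : ℝ) ^ (0.1 : ℝ)) 3 (a * ((x.2 : ℤ) - x.1) ^ 2 + c)) ∩ B1, om ((x.2 : ℤ) - x.1) :=
      sum_nonneg fun x _ => (om_pos _).le
    linarith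
  have h9 : c₁ * (A.card : ℝ) ^ 2 = c₁ / 2 * (A.card : ℝ) ^ 2 + c₁ / 2 * (A.card : ℝ) ^ 2 := by ring
  rw [h9] at hg
  linarith

open Classical in
/-- **The weighted number of the pairs.** -/
theorem power_w : ∃ c₀ : ℝ, 0 < c₀ ∧ ∀ a c : ℤ, IsUnit c → ¬ IsSquare (-(a * c)) →
    ∃ N₀ : ℕ, ∀ N : ℕ, N₀ ≤ N → ∀ (u : ℕ) (A : Finset ℕ), A ⊆ Ioc u (u + N) →
      (N : ℝ) ^ (1 - 0.0000028 : ℝ) ≤ A.card →
      c₀ * (A.card : ℝ) ^ 2 ≤ ∑ x ∈ (A ×ˢ A).filter (fun x : ℕ × ℕ => x.1 < x.2 ∧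
        AP ((N : ℝ) ^ (1 / 10 : ℝ)) 3 (a * ((x.2 : ℤ) - x.1) ^ 2 + c)), (9 : ℝ) ^ ((x.2 - x.1).primeFactors.card) := by
  obtain ⟨c₀, hc₀, H⟩ := power_w_aux
  refine ⟨c₀, hc₀, fun a c hc hac => ?_⟩
  obtain ⟨N₀, hN₀⟩ := H a c hc hac
  refine ⟨N₀, fun N hN u A hA hAc => ?_⟩
  have hinj : Set.InjOn (fun a : ℕ => a - u) A := by
    intro a ha b hb h
    have h1 := (mem_Ioc.1 (hA ha)).1
    have h2 := (mem_Ioc.1 (hA hb)).1
    simp only at h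
    omega
  have hcard : (A.image (fun a => a - u)).card = A.card := card_image_of_injOn hinj
  have hG := hN₀ N hN (A.image (fun a => a - u)) (by
    intro x hx
    obtain ⟨a, ha, rfl⟩ := mem_image.1 hx
    have := mem_Ioc.1 (hA ha)
    rw [mem_Icc]
    omega) (by rw [hcard]; exact hAc)
  rw [hcard] at hG
  refine hG.trans (le_of_eq ?_)
  have hsh : ∀ c : ℕ, c ∈ A.image (fun a => a - u) → c + u ∈ A := by
    intro c hc
    obtain ⟨a', ha', rfl⟩ := mem_image.1 hc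
    have := (mem_Ioc.1 (hA ha')).1
    have e : a' - u + u = a' := by omega
    rw [e]
    exact ha'
  apply sum_bij (fun (x : ℕ × ℕ) _ => (x.1 + u, x.2 + u))
  · rintro ⟨x, y⟩ hx
    rw [mem_filter, mem_product] at hx ⊢
    obtain ⟨⟨h1, h2⟩, h3, h4⟩ := hx
    simp only at h1 h2 h3 h4 ⊢
    have e : (((y + u : ℕ) : ℤ) - ((x + u : ℕ) : ℤ)) = (y : ℤ) - x := by
      push_cast
      ring
    rw [e]
    refine ⟨⟨hsh x h1, hsh y h2⟩, by omega, ?_⟩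
    norm_num at h4 ⊢
    exact h4
  · rintro ⟨x, y⟩ _ ⟨x', y'⟩ _ h
    simp only [Prod.mk.injEq] at h
    rw [Prod.mk.injEq]
    omega
  · rintro ⟨x, y⟩ hx
    rw [mem_filter, mem_product] at hx
    obtain ⟨⟨h1, h2⟩, h3, h4⟩ := hx
    simp only at h1 h2 h3 h4
    have hx1 := (mem_Ioc.1 (hA h1)).1
    have hy1 := (mem_Ioc.1 (hA h2)).1
    refine ⟨(x - u, y - u), ?_, ?_⟩
    · rw [mem_filter, mem_product]
      simp only
      have e : (((y - u : ℕ) : ℤ) - ((x - u : ℕ) : ℤ)) = (y : ℤ) - x := by omega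
      rw [e]
      refine ⟨⟨mem_image_of_mem _ h1, mem_image_of_mem _ h2⟩, by omega, ?_⟩
      norm_num at h4 ⊢
      exact h4
    · rw [Prod.mk.injEq]
      omega
  · rintro ⟨x, y⟩ hx
    rw [mem_filter] at hx
    have h3 := hx.2.1
    simp only at h3 ⊢
    unfold om
    have e : ((y : ℤ) - x).natAbs = y + u - (x + u) := by omega
    rw [e]

end Pool.Agent.H16.P4
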