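import Pool.Agent.H16.P4.Main
import Pool.Agent.H13.P3.Clique

/-!
# Consequences: pairs, complete subgraphs, simultaneous approximation
-/

set_option autoImplicit false

namespace Pool.Agent.H16.P4

open Finset

open Classical in
/-- from the weighted number to the number -/
theorem count_of_w (G : ℕ → ℤ → Prop) (κ c₀ : ℝ) (hc₀ : 0 < c₀)
    (H : ∃ N₀ : ℕ, ∀ N : ℕ, N₀ ≤ N → ∀ (u : ℕ) (A : Finset ℕ), A ⊆ Ioc u (u + N) → (N : ℝ) ^ (1 - κ) ≤ A.card →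
      c₀ * (A.card : ℝ) ^ 2 ≤ ∑ x ∈ (A ×ˢ A).filter (fun x : ℕ × ℕ => x.1 < x.2 ∧ G N ((x.2 : ℤ) - x.1)),
        (9 : ℝ) ^ ((x.2 - x.1).primeFactors.card)) :
    ∀ ε : ℝ, 0 < ε → ∃ N₀ : ℕ, ∀ N : ℕ, N₀ ≤ N → ∀ (u : ℕ) (A : Finset ℕ), A ⊆ Ioc u (u + N) →
      (N : ℝ) ^ (1 - κ) ≤ A.card → (A.card : ℝ) ^ 2 * (N : ℝ) ^ (-ε) ≤
        ((A ×ˢ A).filter (fun x : ℕ × ℕ => x.1 < x.2 ∧ G N ((x.2 : ℤ) - x.1))).card := by
  intro ε hε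
  obtain ⟨N₀, hN₀⟩ := H
  obtain ⟨C, hC1, hC⟩ := om_le (ε / 2) (by positivity)
  obtain ⟨N₁, hN₁⟩ := Filter.eventually_atTop.1
    (((tendsto_rpow_atTop (show (0 : ℝ) < ε / 2 by positivity)).comp
      tendsto_natCast_atTop_atTop).eventually_ge_atTop (C / c₀))
  refine ⟨max (max N₀ N₁) 1, fun N hN u A hA hAc => ?_⟩
  have hNN0 : N₀ ≤ N := (le_max_left _ _).trans ((le_max_left _ _).trans hN)
  have hNN1 : N₁ ≤ N := (le_max_right _ _).trans ((le_max_left _ _).trans hN)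
  have hN1 : 1 ≤ N := (le_max_right _ _).trans hN
  have hN0 : (0 : ℝ) < N := by exact_mod_cast hN1
  have g1 : C / c₀ ≤ (N : ℝ) ^ (ε / 2) := hN₁ N hNN1
  have h1 := hN₀ N hNN0 u A hA hAc
  set S := (A ×ˢ A).filter (fun x : ℕ × ℕ => x.1 < x.2 ∧ G N ((x.2 : ℤ) - x.1)) with hS
  have h2 : ∀ x ∈ S, (9 : ℝ) ^ ((x.2 - x.1).primeFactors.card) ≤ C * (N : ℝ) ^ (ε / 2) := by
    intro x hx
    obtain ⟨hx1, hx2, _⟩ := mem_filter.1 hx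
    obtain ⟨ha, hb⟩ := mem_product.1 hx1
    have ha' := mem_Ioc.1 (hA ha)
    have hb' := mem_Ioc.1 (hA hb)
    have h3 := hC ((x.2 - x.1 : ℕ) : ℤ) (by omega)
    have e : om ((x.2 - x.1 : ℕ) : ℤ) = (9 : ℝ) ^ ((x.2 - x.1).primeFactors.card) := by
      unfold om
      rw [Int.natAbs_natCast]
    rw [← e]
    refine h3.trans ?_
    apply mul_le_mul_of_nonneg_left _ (by linarith)
    apply Real.rpow_le_rpow (by positivity) _ (by positivity)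
    have h4 : |((x.2 - x.1 : ℕ) : ℤ)| ≤ (N : ℤ) := by
      rw [abs_of_nonneg (by positivity)]
      omega
    exact_mod_cast h4
  have h5 := sum_le_card_nsmul S _ _ h2
  rw [nsmul_eq_mul] at h5
  have h6 : c₀ * (A.card : ℝ) ^ 2 ≤ S.card * (C * (N : ℝ) ^ (ε / 2)) := h1.trans h5
  have h7 : C ≤ c₀ * (N : ℝ) ^ (ε / 2) := by
    rw [div_le_iff₀ hc₀] at g1
    linarith
  have h8 : c₀ * (A.card : ℝ) ^ 2 ≤ c₀ * (S.card * ((N : ℝ) ^ (ε / 2) * (N : ℝ) ^ (ε / 2))) := by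
    calc c₀ * (A.card : ℝ) ^ 2 ≤ S.card * (C * (N : ℝ) ^ (ε / 2)) := h6
      _ ≤ S.card * ((c₀ * (N : ℝ) ^ (ε / 2)) * (N : ℝ) ^ (ε / 2)) := by
          apply mul_le_mul_of_nonneg_left _ (Nat.cast_nonneg _)
          exact mul_le_mul_of_nonneg_right h7 (by positivity)
      _ = _ := by ring
  have h9 := le_of_mul_le_mul_left h8 hc₀
  rw [← Real.rpow_add hN0, add_halves] at h9
  rw [Real.rpow_neg hN0.le, ← div_eq_mul_inv, div_le_iff₀ (by positivity)]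
  exact h9

open Classical in
/-- **Complete subgraphs.** For `a n ^ 2 + c`, `c = ± 1`. -/
theorem cliques_quad (a c : ℤ) (hc : IsUnit c) (hac : ¬ IsSquare (-(a * c))) (k : ℕ) (ε : ℝ) (hε : 0 < ε) :
    ∃ N₀ : ℕ, ∀ N : ℕ, N₀ ≤ N → ∀ (u : ℕ) (A : Finset ℕ), A ⊆ Ioc u (u + N) →
      (N : ℝ) ^ (1 - 1 / 400000 : ℝ) ≤ A.card → (A.card : ℝ) ^ k * (N : ℝ) ^ (-ε) ≤
        ((A.powersetCard k).filter (fun S : Finset ℕ => ∀ x ∈ S, ∀ y ∈ S, x < y →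
          AP ((N : ℝ) ^ (1 / 10 : ℝ)) 3 (a * ((y : ℤ) - x) ^ 2 + c))).card := by
  obtain ⟨c₀, hc₀, H⟩ := power_w
  have h1 := count_of_w (fun N n => AP ((N : ℝ) ^ (1 / 10 : ℝ)) 3 (a * n ^ 2 + c)) 0.0000028 c₀ hc₀ (H a c hc hac)
  exact Pool.Agent.H13.P3.cliques_abs (fun N n => AP ((N : ℝ) ^ (1 / 10 : ℝ)) 3 (a * n ^ 2 + c)) 0.0000028 h1
    (1 / 400000) (by norm_num) k ε hε

open Classical in
/-- the pairs -/
theorem pairs_quad (a c : ℤ) (hc : IsUnit c) (hac : ¬ IsSquare (-(a * c))) (ε : ℝ) (hε : 0 < ε) :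
    ∃ N₀ : ℕ, ∀ N : ℕ, N₀ ≤ N → ∀ (u : ℕ) (A : Finset ℕ), A ⊆ Ioc u (u + N) →
      (N : ℝ) ^ (1 - 1 / 400000 : ℝ) ≤ A.card → (A.card : ℝ) ^ 2 * (N : ℝ) ^ (-ε) ≤
        ((A ×ˢ A).filter (fun x : ℕ × ℕ => x.1 < x.2 ∧
          AP ((N : ℝ) ^ (1 / 10 : ℝ)) 3 (a * ((x.2 : ℤ) - x.1) ^ 2 + c))).card := by
  obtain ⟨c₀, hc₀, H⟩ := power_w
  obtain ⟨N₀, h1⟩ := count_of_w (fun N n => AP ((N : ℝ) ^ (1 / 10 : ℝ)) 3 (a * n ^ 2 + c)) 0.0000028 c₀ hc₀ (H a c hc hac) ε hε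
  refine ⟨max N₀ 1, fun N hN u A hA hAc => h1 N ((le_max_left _ _).trans hN) u A hA (le_trans ?_ hAc)⟩
  have hN1 : (1 : ℝ) ≤ N := by exact_mod_cast (le_max_right _ _).trans hN
  exact Real.rpow_le_rpow_of_exponent_le hN1 (by norm_num)

end Pool.Agent.H16.P4
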