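import Pool.Agent.H16.P4.Three
import Pool.Graph.R_seed8.Y882.SI.Quad

/-!
# The condition `p ∣ a n ^ 2 + c`
-/

set_option autoImplicit false

namespace Pool.Agent.H16.P4

open Finset
open Pool.Agent.H16.P3 (gen ind miss Dens RQ IQ)
open Pool.Agent.W23.DC (Mer)
open Pool.Agent.Y882.SI (QF mer_quad ro_quad_le QF_eval)
open Pool.Agent.Y882.PX (ro ro_eq)

/-! the next lemmas are due to helper14 -/

lemma dvd_iff_of_sub {d x y : ℤ} (h : d ∣ x - y) : d ∣ x ↔ d ∣ y := by
  constructor
  · intro h3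
    have := dvd_sub h3 h
    rwa [sub_sub_cancel] at this
  · intro h3
    have := dvd_add h h3
    rwa [sub_add_cancel] at this

lemma cnt_le' (p : ℕ) (hp : p.Prime) (h V : ℤ) (hV : ¬ (p : ℤ) ∣ V) (P : ℤ → Prop) [DecidablePred P]
    (hP : ∀ n m : ℤ, (p : ℤ) ∣ n - m → (P n ↔ P m)) :
    ((range p).filter (fun r : ℕ => P (h + V * r))).card ≤
      ((range p).filter (fun s : ℕ => P (s : ℤ))).card := by
  have hp0 : (0 : ℤ) < p := by exact_mod_cast hp.pos
  have hpZ : Prime (p : ℤ) := Nat.prime_iff_prime_int.1 hp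
  have key : ∀ x : ℤ, (((x % (p : ℤ)).toNat : ℕ) : ℤ) = x % p := fun x =>
    Int.toNat_of_nonneg (Int.emod_nonneg _ hp0.ne')
  apply card_le_card_of_injOn (fun r : ℕ => ((h + V * (r : ℤ)) % (p : ℤ)).toNat)
  · intro r hr
    simp only [coe_filter, Set.mem_setOf_eq, mem_range] at hr ⊢
    refine ⟨?_, ?_⟩
    · have h1 := Int.emod_lt_of_pos (h + V * r) hp0
      rw [← key] at h1
      exact_mod_cast h1
    · refine (hP _ _ ?_).1 hr.2
      rw [key]
      exact Int.dvd_self_sub_emod
  · intro r hr r' hr' hrr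
    simp only [coe_filter, Set.mem_setOf_eq, mem_range] at hr hr'
    have h1 : (h + V * r) % (p : ℤ) = (h + V * r') % (p : ℤ) := by
      have h0 : ((h + V * r) % (p : ℤ)).toNat = ((h + V * r') % (p : ℤ)).toNat := hrr
      rw [← key (h + V * r), ← key (h + V * r'), h0]
    have h2 : (p : ℤ) ∣ (h + V * r') - (h + V * r) := (Int.ModEq.dvd (show _ ≡ _ [ZMOD p] from h1))
    have h3 : (p : ℤ) ∣ V * ((r' : ℤ) - r) := by
      have e : (h + V * r') - (h + V * r) = V * ((r' : ℤ) - r) := by ring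
      rwa [e] at h2
    rcases hpZ.dvd_or_dvd h3 with h4 | h4
    · exact absurd h4 hV
    · have h5 : r ≡ r' [MOD p] := (Nat.modEq_iff_dvd).2 h4
      exact Nat.ModEq.eq_of_lt_of_lt h5 hr.1 hr'.1

lemma cnt_eq (p : ℕ) (hp : p.Prime) (h V : ℤ) (hV : ¬ (p : ℤ) ∣ V) (P : ℤ → Prop) [DecidablePred P]
    (hP : ∀ n m : ℤ, (p : ℤ) ∣ n - m → (P n ↔ P m)) :
    ((range p).filter (fun r : ℕ => P (h + V * r))).card =
      ((range p).filter (fun s : ℕ => P (s : ℤ))).card := by
  apply le_antisymm (cnt_le' p hp h V hV P hP)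
  have hpZ : Prime (p : ℤ) := Nat.prime_iff_prime_int.1 hp
  have hco : IsCoprime (p : ℤ) V := (Prime.coprime_iff_not_dvd hpZ).2 hV
  obtain ⟨s, t, hst⟩ := hco
  -- `t * V = 1 - s * p`
  have htp : ¬ (p : ℤ) ∣ t := by
    intro h1
    apply hpZ.not_dvd_one
    rw [← hst]
    exact dvd_add (dvd_mul_left _ _) (h1.mul_right _)
  have hP' : ∀ n m : ℤ, (p : ℤ) ∣ n - m → (P (h + V * n) ↔ P (h + V * m)) := by
    intro n m hnm
    apply hP
    have e : h + V * n - (h + V * m) = V * (n - m) := by ring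
    rw [e]
    exact hnm.mul_left _
  have hc := cnt_le' p hp (-(t * h)) t htp (fun n => P (h + V * n)) hP'
  have e : (range p).filter (fun r : ℕ => P (h + V * (-(t * h) + t * r))) =
      (range p).filter (fun r : ℕ => P (r : ℤ)) := by
    apply filter_congr
    intro r _
    apply hP
    have e2 : h + V * (-(t * h) + t * r) - r = (p : ℤ) * (s * (h - r)) := by
      linear_combination (r - h) * hst
    rw [e2]
    exact dvd_mul_right _ _
  calc ((range p).filter (fun r : ℕ => P (r : ℤ))).card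
      = ((range p).filter (fun r : ℕ => P (h + V * (-(t * h) + t * r)))).card := by
        rw [e]
    _ ≤ _ := hc

lemma ro_card (k : ℤ) (p : ℕ) : ro (QF k) 0 p = ((range p).filter (fun r : ℕ => (p : ℤ) ∣ (r : ℤ) ^ 2 + k)).card := by
  rw [ro_eq]
  congr 1
  apply filter_congr
  intro r _
  rw [QF_eval, add_zero]

lemma sqk_per (k : ℤ) (p : ℕ) (n m : ℤ) (h : (p : ℤ) ∣ n - m) : (p : ℤ) ∣ n ^ 2 + k ↔ (p : ℤ) ∣ m ^ 2 + k := by
  apply dvd_iff_of_sub
  have h1 : n ^ 2 + k - (m ^ 2 + k) = (n - m) * (n + m) := by ring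
  rw [h1]
  exact h.mul_right _


/-- the condition -/
def TQ (a c : ℤ) (p : ℕ) (n : ℤ) : Prop := (p : ℤ) ∣ a * n ^ 2 + c

lemma TQ_per (a c : ℤ) (p : ℕ) (n m : ℤ) (h : (p : ℤ) ∣ n - m) : TQ a c p n ↔ TQ a c p m := by
  unfold TQ
  have e : a * n ^ 2 + c - (a * m ^ 2 + c) = (n - m) * (a * (n + m)) := by ring
  have h1 : (p : ℤ) ∣ a * n ^ 2 + c - (a * m ^ 2 + c) := by
    rw [e]
    exact h.mul_right _
  constructor
  · intro h2
    have := dvd_sub h2 h1
    rwa [sub_sub_cancel] at this
  · intro h2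
    have := dvd_add h1 h2
    rwa [sub_add_cancel] at this

lemma TQ_even (a c : ℤ) (p : ℕ) (n : ℤ) : TQ a c p n ↔ TQ a c p (-n) := by
  unfold TQ
  rw [neg_sq]

lemma TQ_zero (a c : ℤ) (hc : IsUnit c) (p : ℕ) (hp : p.Prime) : ¬ TQ a c p 0 := by
  unfold TQ
  intro h
  rw [zero_pow two_ne_zero, mul_zero, zero_add] at h
  have h1 : IsUnit (p : ℤ) := isUnit_of_dvd_unit h hc
  rw [Int.isUnit_iff] at h1
  have := hp.two_le
  omega

open Classical in
lemma rho_pos_le (a c : ℤ) (hc : IsUnit c) (p : ℕ) (hp : p.Prime) : rhoT (TQ a c) p ≤ 2 := by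
  have hpZ : Prime (p : ℤ) := Nat.prime_iff_prime_int.1 hp
  unfold rhoT
  by_cases ha : (p : ℤ) ∣ a
  · have : (range p).filter (fun r : ℕ => TQ a c p r) = ∅ := by
      rw [filter_eq_empty_iff]
      intro r _ h
      apply TQ_zero a c hc p hp
      unfold TQ at h ⊢
      rw [zero_pow two_ne_zero, mul_zero, zero_add]
      exact (dvd_add_right (ha.mul_right _)).1 h
    rw [this, card_empty]
    omega
  · -- all roots are `± r₀`
    rcases ((range p).filter (fun r : ℕ => TQ a c p r)).eq_empty_or_nonempty with h0 | ⟨r0, hr0⟩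
    · rw [h0, card_empty]
      omega
    · obtain ⟨hr0p, hr0T⟩ := mem_filter.1 hr0
      rw [mem_range] at hr0p
      have hsub : (range p).filter (fun r : ℕ => TQ a c p r) ⊆ {r0, p - r0} := by
        intro r hr
        obtain ⟨hrp, hrT⟩ := mem_filter.1 hr
        rw [mem_range] at hrp
        have h1 : (p : ℤ) ∣ a * (((r : ℤ) - r0) * (r + r0)) := by
          have := dvd_sub hrT hr0T
          have e : a * (r : ℤ) ^ 2 + c - (a * (r0 : ℤ) ^ 2 + c) = a * (((r : ℤ) - r0) * (r + r0)) := by ring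
          rwa [e] at this
        rw [mem_insert, mem_singleton]
        rcases hpZ.dvd_or_dvd h1 with h2 | h2
        · exact absurd h2 ha
        rcases hpZ.dvd_or_dvd h2 with h3 | h3
        · left
          have h4 := Int.eq_zero_of_abs_lt_dvd h3 (by rw [abs_lt]; constructor <;> omega)
          omega
        · right
          obtain ⟨k, hk⟩ := h3
          have hp0 := hp.pos
          have hk0 : 0 ≤ k := by
            by_contra hneg
            push Not at hneg
            nlinarith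
          have hk2 : k < 2 := by
            by_contra hneg
            push Not at hneg
            nlinarith
          have hr0' : 0 < r + r0 := by
            by_contra hneg
            have e1 : r0 = 0 := by omega
            rw [e1] at hr0T
            exact TQ_zero a c hc p hp (by exact_mod_cast hr0T)
          have hk1 : k = 1 := by
            rcases (by omega : k = 0 ∨ k = 1) with h | h
            · rw [h] at hk
              omega
            · exact h
          rw [hk1] at hk
          omega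
      exact (card_le_card hsub).trans card_le_two

open Classical in
lemma rho_le_ro (a c : ℤ) (p : ℕ) (hp : p.Prime) (ha : ¬ (p : ℤ) ∣ a) :
    rhoT (TQ a c) p = ro (QF (a * c)) 0 p := by
  have hpZ : Prime (p : ℤ) := Nat.prime_iff_prime_int.1 hp
  rw [ro_card]
  rw [← cnt_eq p hp 0 a ha (fun n => (p : ℤ) ∣ n ^ 2 + a * c) (sqk_per _ p)]
  unfold rhoT
  congr 1
  ext r
  rw [mem_filter, mem_filter]
  apply and_congr_right
  intro _
  unfold TQ
  have e : (0 + a * (r : ℤ)) ^ 2 + a * c = a * (a * (r : ℤ) ^ 2 + c) := by ring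
  rw [e]
  constructor
  · intro h
    exact h.mul_left _
  · intro h
    rcases hpZ.dvd_or_dvd h with h1 | h1
    · exact absurd h1 ha
    · exact h1

open Classical in
/-- the densities are regular -/
theorem densQ (a c : ℤ) (hc : IsUnit c) (hac : ¬ IsSquare (-(a * c))) (η : ℝ) (hη : 0 < η) (hη1 : η ≤ 0.001) :
    ∃ N₁ : ℕ, ∀ N : ℕ, N₁ ≤ N → Dens (QT (TQ a c) ⌊(N : ℝ) ^ η⌋₊ ((N : ℝ) ^ (10 / 11 : ℝ)))
      (fun p => (rhoT (TQ a c) p : ℝ) / p) := by
  obtain ⟨N₁, hN₁⟩ := mer_quad (a * c) hac η 1 0.000001 hη le_rfl (by norm_num)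
  have ha0 : a ≠ 0 := by
    rintro rfl
    apply hac
    rw [zero_mul, neg_zero]
    exact IsSquare.zero
  have ev : ∀ᶠ N : ℕ in Filter.atTop, max 1000000 (a.natAbs : ℝ) ≤ (N : ℝ) ^ η :=
    ((tendsto_rpow_atTop hη).comp tendsto_natCast_atTop_atTop).eventually_ge_atTop _
  obtain ⟨N₂, hN₂⟩ := Filter.eventually_atTop.1 ev
  refine ⟨max (max N₁ N₂) 3, fun N hN => ?_⟩
  have hmer := hN₁ N ((le_max_left _ _).trans ((le_max_left _ _).trans hN))
  have hbig := hN₂ N ((le_max_right _ _).trans ((le_max_left _ _).trans hN))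
  have hN3 : 3 ≤ N := (le_max_right _ _).trans hN
  have hNR : (3 : ℝ) ≤ N := by exact_mod_cast hN3
  have hN0 : (0 : ℝ) < N := by linarith
  have hN1 : (1 : ℝ) ≤ N := by linarith
  have hb1 : (1000000 : ℝ) ≤ (N : ℝ) ^ η := (le_max_left _ _).trans hbig
  have hb2 : (a.natAbs : ℝ) ≤ (N : ℝ) ^ η := (le_max_right _ _).trans hbig
  obtain ⟨L, hL⟩ : ∃ L : ℝ, L = Real.log N := ⟨_, rfl⟩
  have hL0 : 0 < L := by
    rw [hL]
    exact Real.log_pos (by linarith)
  set Q := QT (TQ a c) ⌊(N : ℝ) ^ η⌋₊ ((N : ℝ) ^ (10 / 11 : ℝ)) with hQ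
  have hmem : ∀ p ∈ Q, p.Prime ∧ (N : ℝ) ^ η < p ∧ (p : ℝ) ≤ (N : ℝ) ^ (10 / 11 : ℝ) := by
    intro p hp
    obtain ⟨h1, h2, h3, _⟩ := mem_filter.1 hp
    refine ⟨h2, ?_, (Nat.le_floor_iff (by positivity)).1 (mem_Icc.1 h1).2⟩
    exact (Nat.floor_lt (by positivity)).1 h3
  have hrho : ∀ p ∈ Q, rhoT (TQ a c) p = ro (QF (a * c)) 0 p := by
    intro p hp
    obtain ⟨h1, h2, _⟩ := hmem p hp
    apply rho_le_ro a c p h1
    intro h
    have h3 := Nat.le_of_dvd (Int.natAbs_pos.2 ha0) (Int.natCast_dvd.1 h)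
    have h4 : (p : ℝ) ≤ (a.natAbs : ℝ) := by exact_mod_cast h3
    linarith
  have hlog : ∀ p ∈ Q, η * L < Real.log p ∧ Real.log p ≤ 10 / 11 * L := by
    intro p hp
    obtain ⟨h1, h2, h3⟩ := hmem p hp
    have hp0 : (0 : ℝ) < p := by exact_mod_cast h1.pos
    constructor
    · have := Real.log_lt_log (by positivity) h2
      rwa [Real.log_rpow hN0, ← hL] at this
    · have := Real.log_le_log hp0 h3
      rwa [Real.log_rpow hN0, ← hL] at this
  refine ⟨fun p hp => (hmem p hp).1.pos, fun p hp => by positivity, ?_, ?_⟩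
  · intro p hp
    obtain ⟨h1, h2, _⟩ := hmem p hp
    have hp0 : (0 : ℝ) < p := by exact_mod_cast h1.pos
    have h3 : (rhoT (TQ a c) p : ℝ) ≤ 2 := by exact_mod_cast rho_pos_le a c hc p h1
    rw [div_le_iff₀ hp0]
    linarith
  · intro s t hs hst
    have hts : 0 ≤ Real.log (t / s) := Real.log_nonneg (by rw [one_le_div hs]; exact hst)
    rcases (IQ Q s t).eq_empty_or_nonempty with h0 | ⟨p0, hp0⟩
    · rw [h0, sum_empty]
      linarith
    · obtain ⟨hp0Q, hp0s, hp0t⟩ := mem_filter.1 hp0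
      obtain ⟨hl1, hl2⟩ := hlog p0 hp0Q
      have ht0 : 0 < t := lt_of_lt_of_le hs hst
      obtain ⟨α, hα⟩ : ∃ α : ℝ, α = max (s / L) η := ⟨_, rfl⟩
      obtain ⟨β, hβ⟩ : ∃ β : ℝ, β = min (t * 1.000001 / L) 1 := ⟨_, rfl⟩
      have hα1 : η ≤ α := by rw [hα]; exact le_max_right _ _
      have hα2 : s / L ≤ α := by rw [hα]; exact le_max_left _ _
      have hα0 : 0 < α := lt_of_lt_of_le hη hα1
      have hβ1 : β ≤ 1 := by rw [hβ]; exact min_le_right _ _
      have hβ2 : β ≤ t * 1.000001 / L := by rw [hβ]; exact min_le_left _ _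
      have hαβ : α ≤ β := by
        have h1 : α ≤ Real.log p0 / L := by
          rw [hα]
          apply max_le
          · exact div_le_div_of_nonneg_right hp0s.le hL0.le
          · rw [le_div_iff₀ hL0]
            exact hl1.le
        refine h1.trans ?_
        rw [hβ]
        apply le_min
        · apply div_le_div_of_nonneg_right _ hL0.le
          linarith
        · rw [div_le_one hL0]
          linarith
      have h2 := (abs_le.1 (hmer α β hα1 hαβ hβ1)).2
      have h3 : ∑ p ∈ IQ Q s t, (rhoT (TQ a c) p : ℝ) / p ≤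
          ∑ p ∈ (Pool.Agent.W23.DC.pr N η 1).filter (fun p => α ≤ Pool.Agent.W23.DC.tt N p ∧ Pool.Agent.W23.DC.tt N p < β),
            (ro (QF (a * c)) 0 p : ℝ) / p := by
        rw [sum_congr rfl fun p hp => by rw [hrho p (mem_filter.1 hp).1]]
        apply sum_le_sum_of_subset_of_nonneg
        · intro p hp
          obtain ⟨hpQ, hps, hpt⟩ := mem_filter.1 hp
          obtain ⟨hm1, hm2⟩ := hlog p hpQ
          obtain ⟨h4, h5, h6⟩ := hmem p hpQ
          have htt : Pool.Agent.W23.DC.tt N p = Real.log p / L := by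
            unfold Pool.Agent.W23.DC.tt
            rw [hL]
          have hpN : p ≤ N := by
            have h7 : (p : ℝ) ≤ N := by
              calc (p : ℝ) ≤ (N : ℝ) ^ (10 / 11 : ℝ) := h6
                _ ≤ (N : ℝ) ^ (1 : ℝ) := Real.rpow_le_rpow_of_exponent_le hN1 (by norm_num)
                _ = N := Real.rpow_one _
            exact_mod_cast h7
          have hlt1 : Real.log p / L < 1 := by
            rw [div_lt_one hL0]
            linarith
          rw [mem_filter, htt]
          refine ⟨?_, ?_, ?_⟩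
          · unfold Pool.Agent.W23.DC.pr
            rw [mem_filter, mem_Icc, htt]
            refine ⟨⟨h4.pos, hpN⟩, h4, ?_, hlt1⟩
            rw [le_div_iff₀ hL0]
            exact hm1.le
          · rw [hα]
            apply max_le
            · exact div_le_div_of_nonneg_right hps.le hL0.le
            · rw [le_div_iff₀ hL0]
              exact hm1.le
          · rw [hβ]
            apply lt_min _ hlt1
            apply div_lt_div_of_pos_right _ hL0
            linarith
        · intro p _ _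
          positivity
      refine h3.trans ?_
      have h4 : Real.log (β / α) ≤ Real.log (t / s) + 0.000001 := by
        have h5 : β / α ≤ t / s * 1.000001 := by
          rw [div_le_iff₀ hα0]
          calc β ≤ t * 1.000001 / L := hβ2
            _ = t / s * 1.000001 * (s / L) := by field_simp
            _ ≤ t / s * 1.000001 * α := mul_le_mul_of_nonneg_left hα2 (by positivity)
        have hβ0 : 0 < β := lt_of_lt_of_le hα0 hαβ
        refine (Real.log_le_log (by positivity) h5).trans ?_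
        rw [Real.log_mul (by positivity) (by norm_num)]
        have h6 : Real.log (1.000001 : ℝ) ≤ 1.000001 - 1 := Real.log_le_sub_one_of_pos (by norm_num)
        linarith
      linarith

end Pool.Agent.H16.P4
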